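import Pool.Agent.J4H45.GT.Stm0

set_option autoImplicit false

/-! # Counting: elements of a finite abelian group which separate many characters -/

namespace Pool.Agent.J4H82.GT

open Pool.Agent.J4H45.GT
open scoped ComplexConjugate symmDiff

theorem one_sub_sum_le {ι : Type} (s : Finset ι) (a : ι → ℝ) (h : ∀ i ∈ s, 0 ≤ a i ∧ a i ≤ 1) :
    1 - ∑ i ∈ s, a i ≤ ∏ i ∈ s, (1 - a i) ∧ 0 ≤ ∏ i ∈ s, (1 - a i) ∧ ∏ i ∈ s, (1 - a i) ≤ 1 := by
  classical
  induction s using Finset.induction_on with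
  | empty => simp
  | insert i s hi ih =>
    rw [Finset.sum_insert hi, Finset.prod_insert hi]
    obtain ⟨h1, h2, h3⟩ := ih fun j hj => h j (Finset.mem_insert_of_mem hj)
    obtain ⟨h4, h5⟩ := h i (Finset.mem_insert_self _ _)
    refine ⟨?_, mul_nonneg (by linarith) h2, ?_⟩
    · nlinarith [mul_le_mul_of_nonneg_left h3 h4]
    · nlinarith [mul_nonneg h4 h2]

theorem nsq (z : ℂ) (hz : ‖z‖ = 1) : ‖1 - z‖ ^ 2 = 2 - 2 * z.re := by
  have h1 : ‖z‖ ^ 2 = 1 := by rw [hz, one_pow]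
  rw [Complex.sq_norm, Complex.normSq_apply] at h1 ⊢
  simp only [Complex.sub_re, Complex.sub_im, Complex.one_re, Complex.one_im]
  nlinarith

theorem psq (z : ℂ) (hz : ‖z‖ = 1) : ‖1 + z‖ ^ 2 = 4 * (1 - ‖1 - z‖ ^ 2 / 4) := by
  have h3 := nsq (-z) (by rwa [norm_neg])
  rw [sub_neg_eq_add, Complex.neg_re] at h3
  rw [h3, nsq z hz]
  ring

/-- the second moment -/
theorem moment {P : Type} [DecidableEq P] (B : Finset P) (w : P → ℂ) (hw : ∀ p, ‖w p‖ = 1) :
    ∑ S ∈ B.powerset, ∑ S' ∈ B.powerset, ‖1 - (∏ p ∈ S, w p) * conj (∏ p ∈ S', w p)‖ ^ 2 ≤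
      4 ^ B.card * (∑ p ∈ B, ‖1 - w p‖ ^ 2) / 2 := by
  have hS : ∀ S : Finset P, ‖∏ p ∈ S, w p‖ = 1 := fun S => by
    rw [norm_prod]
    exact Finset.prod_eq_one fun p _ => hw p
  have h5 : ∀ S S' : Finset P, ‖1 - (∏ p ∈ S, w p) * conj (∏ p ∈ S', w p)‖ ^ 2 =
      2 - 2 * ((∏ p ∈ S, w p) * conj (∏ p ∈ S', w p)).re := fun S S' =>
    nsq _ (by rw [norm_mul, Complex.norm_conj, hS, hS, one_mul])
  have h6 : ∑ S ∈ B.powerset, ∑ S' ∈ B.powerset, ((∏ p ∈ S, w p) * conj (∏ p ∈ S', w p)).re =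
      ‖∑ S ∈ B.powerset, ∏ p ∈ S, w p‖ ^ 2 := by
    have h7 : ∑ S ∈ B.powerset, ∑ S' ∈ B.powerset, ((∏ p ∈ S, w p) * conj (∏ p ∈ S', w p)) =
        (∑ S ∈ B.powerset, ∏ p ∈ S, w p) * conj (∑ S ∈ B.powerset, ∏ p ∈ S, w p) := by
      rw [map_sum, Finset.sum_mul]
      refine Finset.sum_congr rfl fun S _ => ?_
      rw [Finset.mul_sum]
    have h8 := congrArg Complex.re h7
    rw [Complex.mul_conj, Complex.ofReal_re, ← Complex.sq_norm, Complex.re_sum] at h8
    rw [← h8]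
    refine Finset.sum_congr rfl fun S _ => ?_
    rw [Complex.re_sum]
  have h9 : ∑ S ∈ B.powerset, ∑ S' ∈ B.powerset, ‖1 - (∏ p ∈ S, w p) * conj (∏ p ∈ S', w p)‖ ^ 2 =
      2 * 4 ^ B.card - 2 * ‖∑ S ∈ B.powerset, ∏ p ∈ S, w p‖ ^ 2 := by
    rw [← h6, Finset.mul_sum]
    simp only [h5, Finset.sum_sub_distrib, Finset.sum_const, Finset.card_powerset, nsmul_eq_mul,
      ← Finset.mul_sum]
    push_cast
    have h10 : (4 : ℝ) ^ B.card = 2 ^ B.card * 2 ^ B.card := by
      rw [← mul_pow]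
      norm_num
    rw [h10]
    ring
  have h11 : ‖∑ S ∈ B.powerset, ∏ p ∈ S, w p‖ ^ 2 = 4 ^ B.card * ∏ p ∈ B, (1 - ‖1 - w p‖ ^ 2 / 4) := by
    rw [← Finset.prod_one_add, norm_prod, ← Finset.prod_pow, ← Finset.prod_const,
      ← Finset.prod_mul_distrib]
    exact Finset.prod_congr rfl fun p _ => psq _ (hw p)
  have h12 := (one_sub_sum_le B (fun p => ‖1 - w p‖ ^ 2 / 4) (fun p _ => ⟨by positivity, by
    have h13 : ‖1 - w p‖ ≤ 2 := (norm_sub_le _ _).trans (by rw [norm_one, hw p]; norm_num)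
    have h14 := norm_nonneg (1 - w p)
    nlinarith⟩)).1
  rw [h9, h11]
  rw [← Finset.sum_div] at h12
  have h15 : (0 : ℝ) < 4 ^ B.card := by positivity
  nlinarith [mul_le_mul_of_nonneg_left h12 h15.le]

/-- the generating function of the distances -/
theorem ball {P : Type} [DecidableEq P] (B D : Finset P) (hD : D ⊆ B) (l : ℝ) :
    ∑ S ∈ B.powerset, l ^ (S ∆ D).card = (1 + l) ^ B.card := by
  have h1 : ∑ S ∈ B.powerset, l ^ (S ∆ D).card = ∑ T ∈ B.powerset, l ^ T.card := by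
    refine Finset.sum_nbij' (fun S => S ∆ D) (fun T => T ∆ D) ?_ ?_ ?_ ?_ ?_
    · intro S hS
      rw [Finset.mem_powerset] at hS ⊢
      exact symmDiff_le (hS.trans le_sup_right) (hD.trans le_sup_right)
    · intro S hS
      rw [Finset.mem_powerset] at hS ⊢
      exact symmDiff_le (hS.trans le_sup_right) (hD.trans le_sup_right)
    · intro S _
      exact symmDiff_symmDiff_cancel_right _ _
    · intro S _
      exact symmDiff_symmDiff_cancel_right _ _
    · intro S _
      rfl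
  rw [h1]
  have h2 := Finset.sum_pow_mul_eq_add_pow l 1 B
  simp only [one_pow, mul_one] at h2
  rw [h2, add_comm]

/-- decoding one bit -/
theorem decode (z E : ℂ) (ε : ℝ) (hz : ‖z‖ = 1) (h : ε < ‖1 - z‖) (hE : ‖1 - E‖ ≤ ε / 2)
    (a b : Prop) [Decidable a] [Decidable b] :
    a ↔ (b ↔ ‖1 - (if a then z else 1) * conj (if b then z else 1) * E‖ ≤ ε / 2) := by
  have hzz : z * conj z = 1 := by
    rw [Complex.mul_conj, ← Complex.sq_norm, hz]
    norm_num
  have key : ∀ t : ℂ, ‖t‖ = 1 → ‖1 - t‖ = ‖1 - z‖ → ¬ ‖1 - t * E‖ ≤ ε / 2 := by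
    intro t ht ht' hle
    have h1 : 1 - t = (1 - t * E) - t * (1 - E) := by ring
    have h2 : ‖1 - t‖ ≤ ‖1 - t * E‖ + ‖1 - E‖ := by
      calc ‖1 - t‖ = ‖(1 - t * E) - t * (1 - E)‖ := by rw [← h1]
        _ ≤ ‖1 - t * E‖ + ‖t * (1 - E)‖ := norm_sub_le _ _
        _ = ‖1 - t * E‖ + ‖1 - E‖ := by rw [norm_mul, ht, one_mul]
    linarith
  have hc : ‖1 - conj z‖ = ‖1 - z‖ := by
    rw [← Complex.norm_conj (1 - z), map_sub, map_one]
  by_cases ha : a <;> by_cases hb : b
  · simp only [ha, hb, if_true, true_iff]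
    rw [hzz, one_mul]
    exact hE
  · simp only [ha, hb, if_true, if_false, true_iff, false_iff, map_one, mul_one]
    exact key z hz rfl
  · simp only [ha, hb, if_true, if_false, true_iff, false_iff, one_mul]
    exact key (conj z) (by rw [Complex.norm_conj, hz]) hc
  · simp only [ha, hb, if_false, false_iff, map_one, one_mul, not_not]
    exact hE

theorem t_CN0 : S_CN0 := by
  classical
  intro Θ _ _ P _ ζ B θ ε hn hm hε hB hsum
  -- the characters
  have h1 : ∀ q, ζ q 1 = 1 := by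
    intro q
    have h2 := hm q 1 1
    rw [one_mul] at h2
    have h3 : ζ q 1 ≠ 0 := by
      intro h4
      have h5 := hn q 1
      rw [h4, norm_zero] at h5
      exact zero_ne_one h5
    exact (mul_left_cancel₀ h3 (by rw [← h2, mul_one])).symm
  have hprod : ∀ q (S : Finset P), ζ q (∏ p ∈ S, θ p) = ∏ p ∈ S, ζ q (θ p) := by
    intro q S
    exact map_prod (⟨⟨ζ q, h1 q⟩, hm q⟩ : Θ →* ℂ) θ S
  have hinv : ∀ q x, ζ q x⁻¹ = conj (ζ q x) := by
    intro q x
    have h2 : ζ q x * ζ q x⁻¹ = 1 := by rw [← hm, mul_inv_cancel, h1]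
    rw [← Complex.inv_eq_conj (hn q x)]
    exact (inv_eq_of_mul_eq_one_right h2).symm
  set w : P → P → ℂ := fun q p => if p = q then 1 else ζ q (θ p) with hw
  have hwn : ∀ q p, ‖w q p‖ = 1 := by
    intro q p
    rw [hw]
    dsimp only
    split_ifs
    · exact norm_one
    · exact hn _ _
  have hfac : ∀ q (S : Finset P), ∏ p ∈ S, ζ q (θ p) =
      (if q ∈ S then ζ q (θ q) else 1) * ∏ p ∈ S, w q p := by
    intro q S
    rw [← Finset.prod_ite_eq' S q (fun p => ζ q (θ p)), ← Finset.prod_mul_distrib]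
    refine Finset.prod_congr rfl fun p _ => ?_
    rw [hw]
    dsimp only
    by_cases h : p = q
    · rw [if_pos h, if_pos h, mul_one]
    · rw [if_neg h, if_neg h, one_mul]
  set E : P → Finset P → Finset P → ℂ := fun q S S' =>
    (∏ p ∈ S, w q p) * conj (∏ p ∈ S', w q p) with hE
  have hval : ∀ q (S S' : Finset P), ζ q ((∏ p ∈ S, θ p) * (∏ p ∈ S', θ p)⁻¹) =
      (if q ∈ S then ζ q (θ q) else 1) * conj (if q ∈ S' then ζ q (θ q) else 1) * E q S S' := by
    intro q S S'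
    rw [hm, hinv, hprod, hprod, hfac q S, hfac q S', map_mul, hE]
    ring
  -- decoding
  set dec : Finset P → Θ → Finset P := fun S' g =>
    B.filter fun q => (q ∈ S' ↔ ‖1 - ζ q g‖ ≤ ε / 2) with hdec
  set gg : Finset P → Finset P → Θ := fun S S' => (∏ p ∈ S, θ p) * (∏ p ∈ S', θ p)⁻¹ with hgg
  have herr : ∀ S ⊆ B, ∀ S' : Finset P, (((S ∆ dec S' (gg S S')).card : ℕ) : ℝ) ≤
      ∑ q ∈ B, 4 / ε ^ 2 * ‖1 - E q S S'‖ ^ 2 := by
    intro S hS S'
    have h2 : S ∆ dec S' (gg S S') ⊆ B.filter fun q => ε / 2 < ‖1 - E q S S'‖ := by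
      intro q hq
      have hqB : q ∈ B := by
        rcases Finset.mem_symmDiff.1 hq with h3 | h3
        · exact hS h3.1
        · exact (Finset.mem_filter.1 h3.1).1
      rw [Finset.mem_filter]
      refine ⟨hqB, ?_⟩
      by_contra h3
      have h4 := decode (ζ q (θ q)) (E q S S') ε (hn _ _) (hB q hqB) (not_lt.1 h3) (q ∈ S) (q ∈ S')
      rw [← hval] at h4
      have h5 : q ∈ S ↔ q ∈ dec S' (gg S S') := by
        rw [hdec]
        dsimp only
        rw [Finset.mem_filter]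
        exact ⟨fun h => ⟨hqB, h4.1 h⟩, fun h => h4.2 h.2⟩
      rcases Finset.mem_symmDiff.1 hq with h6 | h6
      · exact h6.2 (h5.1 h6.1)
      · exact h6.2 (h5.2 h6.1)
    calc (((S ∆ dec S' (gg S S')).card : ℕ) : ℝ)
        ≤ ((B.filter fun q => ε / 2 < ‖1 - E q S S'‖).card : ℝ) := by
          exact_mod_cast Finset.card_le_card h2
      _ = ∑ q ∈ B, if ε / 2 < ‖1 - E q S S'‖ then (1 : ℝ) else 0 := by
          rw [Finset.sum_ite, Finset.sum_const_zero, add_zero, Finset.sum_const, nsmul_eq_mul,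
            mul_one]
      _ ≤ _ := by
          refine Finset.sum_le_sum fun q _ => ?_
          split_ifs with h3
          · have h4 : (ε / 2) ^ 2 ≤ ‖1 - E q S S'‖ ^ 2 := by
              apply pow_le_pow_left₀ (by positivity) h3.le
            have h5 : 4 / ε ^ 2 * (ε / 2) ^ 2 = 1 := by
              field_simp
              norm_num
            calc (1 : ℝ) = 4 / ε ^ 2 * (ε / 2) ^ 2 := h5.symm
              _ ≤ _ := mul_le_mul_of_nonneg_left h4 (by positivity)
          · positivity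
  -- the mean number of errors
  have hmean : ∑ S' ∈ B.powerset, ∑ S ∈ B.powerset, (((S ∆ dec S' (gg S S')).card : ℕ) : ℝ) ≤
      ∑ S' ∈ B.powerset, 2 ^ B.card * ((B.card : ℝ) / 8) := by
    rw [Finset.sum_const, Finset.card_powerset, nsmul_eq_mul, Finset.sum_comm]
    calc ∑ S ∈ B.powerset, ∑ S' ∈ B.powerset, (((S ∆ dec S' (gg S S')).card : ℕ) : ℝ)
        ≤ ∑ S ∈ B.powerset, ∑ S' ∈ B.powerset, ∑ q ∈ B, 4 / ε ^ 2 * ‖1 - E q S S'‖ ^ 2 :=
          Finset.sum_le_sum fun S hS => Finset.sum_le_sum fun S' _ =>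
            herr S (Finset.mem_powerset.1 hS) S'
      _ = ∑ q ∈ B, 4 / ε ^ 2 * ∑ S ∈ B.powerset, ∑ S' ∈ B.powerset, ‖1 - E q S S'‖ ^ 2 := by
          simp only [Finset.mul_sum]
          rw [Finset.sum_comm]
          rw [Finset.sum_comm (s := B)]
          rw [Finset.sum_comm]
          refine Finset.sum_congr rfl fun S _ => ?_
          rw [Finset.sum_comm]
      _ ≤ ∑ q ∈ B, 4 / ε ^ 2 * (4 ^ B.card * (∑ p ∈ B, ‖1 - w q p‖ ^ 2) / 2) :=
          Finset.sum_le_sum fun q _ => mul_le_mul_of_nonneg_left (moment B (w q) (hwn q))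
            (by positivity)
      _ = 2 / ε ^ 2 * 4 ^ B.card * ∑ p ∈ B, ∑ q ∈ B, ‖1 - w q p‖ ^ 2 := by
          rw [Finset.sum_comm (s := B) (t := B) (f := fun p q => ‖1 - w q p‖ ^ 2), Finset.mul_sum]
          refine Finset.sum_congr rfl fun q _ => ?_
          ring
      _ = 2 / ε ^ 2 * 4 ^ B.card * ∑ p ∈ B, ∑ p' ∈ B.erase p, ‖1 - ζ p' (θ p)‖ ^ 2 := by
          congr 1
          refine Finset.sum_congr rfl fun p hp => ?_
          rw [← Finset.add_sum_erase B _ hp]
          have h2 : ‖1 - w p p‖ ^ 2 = 0 := by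
            rw [hw]
            dsimp only
            rw [if_pos rfl, sub_self, norm_zero]
            norm_num
          rw [h2, zero_add]
          refine Finset.sum_congr rfl fun q hq => ?_
          rw [hw]
          dsimp only
          rw [if_neg (Finset.ne_of_mem_erase hq).symm]
      _ ≤ 2 / ε ^ 2 * 4 ^ B.card * (ε ^ 2 / 16 * B.card) :=
          mul_le_mul_of_nonneg_left hsum (by positivity)
      _ = _ := by
          have h10 : (4 : ℝ) ^ B.card = 2 ^ B.card * 2 ^ B.card := by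
            rw [← mul_pow]
            norm_num
          rw [h10]
          push_cast
          field_simp
          ring
  obtain ⟨S', -, hS'⟩ := Finset.exists_le_of_sum_le (Finset.powerset_nonempty B) hmean
  -- Jensen
  set c : ℝ := (B.card : ℝ) / 8 * Real.log (1 / 8) with hc
  have hlog : Real.log (1 / 8) < 0 := Real.log_neg (by norm_num) (by norm_num)
  have hlow : 2 ^ B.card * Real.exp c ≤
      ∑ S ∈ B.powerset, (1 / 8 : ℝ) ^ (S ∆ dec S' (gg S S')).card := by
    have h2 : ∀ S : Finset P, Real.exp c * (1 + (((S ∆ dec S' (gg S S')).card : ℕ) : ℝ) *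
        Real.log (1 / 8) - c) ≤ (1 / 8 : ℝ) ^ (S ∆ dec S' (gg S S')).card := by
      intro S
      have h3 : (1 / 8 : ℝ) ^ (S ∆ dec S' (gg S S')).card =
          Real.exp c * Real.exp ((((S ∆ dec S' (gg S S')).card : ℕ) : ℝ) * Real.log (1 / 8) - c) := by
        rw [← Real.exp_add, add_sub_cancel, Real.exp_nat_mul, Real.exp_log (by norm_num)]
      rw [h3]
      refine mul_le_mul_of_nonneg_left ?_ (Real.exp_pos _).le
      have h4 := Real.add_one_le_exp
        ((((S ∆ dec S' (gg S S')).card : ℕ) : ℝ) * Real.log (1 / 8) - c)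
      linarith
    refine le_trans ?_ (Finset.sum_le_sum fun S _ => h2 S)
    rw [← Finset.mul_sum, Finset.sum_sub_distrib, Finset.sum_add_distrib, Finset.sum_const,
      Finset.sum_const, Finset.card_powerset, nsmul_eq_mul, nsmul_eq_mul, ← Finset.sum_mul]
    push_cast
    have h5 : 2 ^ B.card * c ≤ (∑ S ∈ B.powerset, (((S ∆ dec S' (gg S S')).card : ℕ) : ℝ)) *
        Real.log (1 / 8) := by
      have h6 := mul_le_mul_of_nonpos_right hS' hlog.le
      rw [hc]
      linarith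
    have h7 := Real.exp_pos c
    nlinarith [mul_le_mul_of_nonneg_left h5 h7.le]
  -- counting
  have hup : ∑ S ∈ B.powerset, (1 / 8 : ℝ) ^ (S ∆ dec S' (gg S S')).card ≤
      (Fintype.card Θ : ℝ) * (1 + 1 / 8) ^ B.card := by
    calc ∑ S ∈ B.powerset, (1 / 8 : ℝ) ^ (S ∆ dec S' (gg S S')).card
        ≤ ∑ S ∈ B.powerset, ∑ g : Θ, (1 / 8 : ℝ) ^ (S ∆ dec S' g).card :=
          Finset.sum_le_sum fun S _ => Finset.single_le_sum
            (f := fun g : Θ => (1 / 8 : ℝ) ^ (S ∆ dec S' g).card)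
            (fun g _ => by positivity) (Finset.mem_univ (gg S S'))
      _ = ∑ g : Θ, ∑ S ∈ B.powerset, (1 / 8 : ℝ) ^ (S ∆ dec S' g).card := Finset.sum_comm
      _ = ∑ g : Θ, (1 + 1 / 8 : ℝ) ^ B.card :=
          Finset.sum_congr rfl fun g _ => ball B _ (Finset.filter_subset _ _) _
      _ = _ := by rw [Finset.sum_const, Finset.card_univ, nsmul_eq_mul]
  have hfin := hlow.trans hup
  have hcard : (0 : ℝ) < Fintype.card Θ := by exact_mod_cast Fintype.card_pos
  have h20 := Real.log_le_log (by positivity) hfin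
  rw [Real.log_mul (by positivity) (Real.exp_pos _).ne', Real.log_mul hcard.ne' (by positivity),
    Real.log_exp, Real.log_pow, Real.log_pow] at h20
  have h21 : Real.log (1 / 8) = - 3 * Real.log 2 := by
    rw [one_div, Real.log_inv, show (8 : ℝ) = 2 ^ 3 by norm_num, Real.log_pow]
    push_cast
    ring
  have h22 : Real.log (1 + 1 / 8) ≤ 1 / 8 := by
    have := Real.log_le_sub_one_of_pos (show (0 : ℝ) < 1 + 1 / 8 by norm_num)
    linarith
  have h23 := Real.log_two_gt_d9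
  rw [hc, h21] at h20
  have h24 : (0 : ℝ) ≤ B.card := by positivity
  nlinarith [mul_le_mul_of_nonneg_left h22 h24, mul_le_mul_of_nonneg_left h23.le h24]

end Pool.Agent.J4H82.GT
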